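import Mathlib
import Pool.Agent.H13.P3.E

/-!
# Monochromatic three-edge paths: colourings in which some colour has no monochromatic triangle

A partial result on Q1 of `MP_e0c710_co`: in every 3-edge-colouring of a finite graph of chromatic
number at least 6 there is a monochromatic path with three edges, or else there are monochromatic
triangles in *each* of the three colours.
-/

namespace Pool.Agent.Results.MP_e0c710_co.TrianglesInEveryColour

open Pool.H13.P3 Finset

/-- Every 3-edge-colouring of a finite graph with chromatic number at least 6 has a monochromatic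
`P_3` (path with three edges) or a monochromatic triangle in each of the three colours. -/
theorem result (V : Type) [Fintype V] (G : SimpleGraph V) (hG : 6 ≤ G.chromaticNumber)
    (col : Sym2 V → Fin 3) :
    (∃ a b c d : V,
      G.Adj a b ∧ G.Adj b c ∧ G.Adj c d ∧ a ≠ c ∧ b ≠ d ∧ a ≠ d ∧
        col s(a, b) = col s(b, c) ∧ col s(b, c) = col s(c, d)) ∨
    (∀ k : Fin 3, ∃ x y z : V,
      G.Adj x y ∧ G.Adj y z ∧ G.Adj x z ∧
        col s(x, y) = k ∧ col s(y, z) = k ∧ col s(x, z) = k) := by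
  by_contra hcon
  rw [not_or] at hcon
  obtain ⟨h1, h2⟩ := hcon
  rw [not_forall] at h2
  obtain ⟨k, hk⟩ := h2
  have hcls : ∀ i : Fin 3, Cls (univ : Finset V) (fun x y => G.Adj x y ∧ col s(x, y) = i) := by
    intro i
    refine ⟨?_, ?_, ?_, ?_⟩
    · rintro x y ⟨h, h'⟩
      exact ⟨h.symm, by rw [Sym2.eq_swap]; exact h'⟩
    · rintro x ⟨h, _⟩
      exact G.loopless.irrefl x h
    · rintro a b c d ⟨h, h'⟩ ⟨k, k'⟩ ⟨l, l'⟩ e1 e2 e3
      exact h1 ⟨a, b, c, d, h, k, l, e1, e2, e3, h'.trans k'.symm, k'.trans l'.symm⟩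
    · intro x y _
      exact ⟨mem_univ _, mem_univ _⟩
  obtain ⟨φ, hφ⟩ := main_aux _ (univ : Finset V) _ _ _ rfl (hcls (k + 1)) (hcls (k + 2)) (hcls k) (by
    rintro v ⟨x, y, hx, hy, hxy⟩
    exact hk ⟨v, x, y, hx.1, hxy.1, hy.1, hx.2, hxy.2, hy.2⟩)
  have hcol : G.Colorable 5 := by
    refine ⟨SimpleGraph.Coloring.mk φ ?_⟩
    intro x y hxy
    apply hφ
    have h3 : ∀ c k : Fin 3, c = k + 1 ∨ c = k + 2 ∨ c = k := by decide
    rcases h3 (col s(x, y)) k with h | h | h
    exacts [Or.inl ⟨hxy, h⟩, Or.inr (Or.inl ⟨hxy, h⟩), Or.inr (Or.inr ⟨hxy, h⟩)]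
  have hle := hcol.chromaticNumber_le
  have : (6 : ℕ∞) ≤ (5 : ℕ) := hG.trans hle
  exact absurd this (by decide)

end Pool.Agent.Results.MP_e0c710_co.TrianglesInEveryColour
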